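import Mathlib

/-!
# A finitely generated torsion-free nilpotent group all of whose embeddings into the groups
`UT_n(ℤ)` are distorted

The group is the integral Heisenberg group of dimension five. If `φ : G → UT_n(ℤ)` is a
homomorphism and `z` generates the centre of `G`, then the second superdiagonal of `φ z` defines
alternating forms of rank at most two on `ℤ^4` which are multiples of a form of rank four; hence
`φ z` lies in the third term of the lower central series of `UT_n(ℤ)`, and the word length of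
`(φ z)^(m^3)` in `UT_n(ℤ)` is `O(m)`, while it is at least `c m^(3/2)` in `G`.
-/

set_option autoImplicit false

namespace Pool.Agent.Results.MP_34ced1_al.HeisenbergFive

open Matrix

/-! ### Word length and distortion -/

/-- The word length of `g` over `S ∪ S⁻¹`. -/
noncomputable def wordLength {K : Type*} [Group K] (S : Set K) (g : K) : ℕ :=
  sInf {n | ∃ l : List K, l.length = n ∧ (∀ x ∈ l, x ∈ S ∨ x⁻¹ ∈ S) ∧ l.prod = g}

/-- The finitely generated subgroup `H` of the finitely generated group `K` is undistorted: for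
some finite generating sets `S` of `H` and `T` of `K` there is a constant `C` such that
`|h|_S ≤ C |h|_T + C` for all `h ∈ H`. (The property does not depend on the choice of `S` and
`T`.) -/
def Undistorted {K : Type*} [Group K] (H : Subgroup K) : Prop :=
  ∃ S T : Finset K, Subgroup.closure (S : Set K) = H ∧ Subgroup.closure (T : Set K) = ⊤ ∧
    ∃ C : ℕ, ∀ h ∈ H, wordLength (S : Set K) h ≤ C * wordLength (T : Set K) h + C

section WordLength

variable {K : Type*} [Group K] {S : Set K}

theorem wordLength_le_of_list (l : List K) (hl : ∀ x ∈ l, x ∈ S ∨ x⁻¹ ∈ S) :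
    wordLength S l.prod ≤ l.length :=
  Nat.sInf_le ⟨l, rfl, hl, rfl⟩

theorem exists_list {g : K} (hg : g ∈ Subgroup.closure S) :
    ∃ l : List K, l.length = wordLength S g ∧ (∀ x ∈ l, x ∈ S ∨ x⁻¹ ∈ S) ∧ l.prod = g := by
  have hne : {n | ∃ l : List K, l.length = n ∧ (∀ x ∈ l, x ∈ S ∨ x⁻¹ ∈ S) ∧
      l.prod = g}.Nonempty := by
    induction hg using Subgroup.closure_induction with
    | mem x hx => exact ⟨1, [x], rfl, by simp [hx], by simp⟩
    | one => exact ⟨0, [], rfl, by simp, by simp⟩
    | mul x y _ _ hx hy =>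
      obtain ⟨n, l, -, hl, rfl⟩ := hx
      obtain ⟨m, l', -, hl', rfl⟩ := hy
      refine ⟨_, l ++ l', rfl, ?_, List.prod_append⟩
      intro x hx
      rcases List.mem_append.1 hx with hx | hx
      · exact hl x hx
      · exact hl' x hx
    | inv x _ hx =>
      obtain ⟨n, l, -, hl, rfl⟩ := hx
      refine ⟨_, (l.map fun x => x⁻¹).reverse, rfl, ?_, (List.prod_inv_reverse l).symm⟩
      intro x hx
      rw [List.mem_reverse, List.mem_map] at hx
      obtain ⟨y, hy, rfl⟩ := hx
      rw [inv_inv]
      exact (hl y hy).symm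
  exact Nat.sInf_mem hne

theorem wordLength_mul_le {g h : K} (hg : g ∈ Subgroup.closure S) (hh : h ∈ Subgroup.closure S) :
    wordLength S (g * h) ≤ wordLength S g + wordLength S h := by
  obtain ⟨l, h1, h2, h3⟩ := exists_list hg
  obtain ⟨l', h1', h2', h3'⟩ := exists_list hh
  have := wordLength_le_of_list (S := S) (l ++ l') (by
    intro x hx
    rcases List.mem_append.1 hx with hx | hx
    · exact h2 x hx
    · exact h2' x hx)
  rw [List.prod_append, h3, h3', List.length_append, h1, h1'] at this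
  exact this

theorem wordLength_inv_le {g : K} (hg : g ∈ Subgroup.closure S) :
    wordLength S g⁻¹ ≤ wordLength S g := by
  obtain ⟨l, h1, h2, h3⟩ := exists_list hg
  have := wordLength_le_of_list (S := S) (l.map fun x => x⁻¹).reverse (by
    intro x hx
    rw [List.mem_reverse, List.mem_map] at hx
    obtain ⟨y, hy, rfl⟩ := hx
    rw [inv_inv]
    exact (h2 y hy).symm)
  rw [← List.prod_inv_reverse, h3, List.length_reverse, List.length_map, h1] at this
  exact this

theorem wordLength_one : wordLength S (1 : K) = 0 := by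
  have := wordLength_le_of_list (S := S) ([] : List K) (by simp)
  simpa using this

theorem wordLength_pow_le {g : K} (hg : g ∈ Subgroup.closure S) (k : ℕ) :
    wordLength S (g ^ k) ≤ k * wordLength S g := by
  induction k with
  | zero => simp [wordLength_one]
  | succ k ih =>
    rw [pow_succ]
    refine (wordLength_mul_le (Subgroup.pow_mem _ hg _) hg).trans ?_
    rw [Nat.succ_mul]
    omega

end WordLength

/-! ### Unitriangular groups -/

/-- `UT_n(ℤ)`: the group of upper triangular integral matrices with ones on the diagonal. -/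
def UT (n : ℕ) : Subgroup (Matrix (Fin n) (Fin n) ℤ)ˣ where
  carrier := {g | (∀ i, g.val i i = 1) ∧ ∀ i j, j < i → g.val i j = 0}
  one_mem' := ⟨fun i => by simp, fun i j h => by simp [h.ne']⟩
  mul_mem' := by
    rintro a b ⟨ha, ha'⟩ ⟨hb, hb'⟩
    refine ⟨fun i => ?_, fun i k hik => ?_⟩
    · rw [Units.val_mul, Matrix.mul_apply, Finset.sum_eq_single i]
      · rw [ha, hb, one_mul]
      · intro j _ hj
        rcases lt_or_gt_of_ne hj with h | h
        · rw [ha' i j h, zero_mul]
        · rw [hb' j i h, mul_zero]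
      · simp
    · rw [Units.val_mul, Matrix.mul_apply]
      refine Finset.sum_eq_zero fun j _ => ?_
      rcases lt_or_ge j i with h | h
      · rw [ha' i j h, zero_mul]
      · rw [hb' j k (lt_of_lt_of_le hik h), mul_zero]
  inv_mem' := by
    rintro a ⟨ha, ha'⟩
    have hbt : BlockTriangular a.val id := fun i j h => ha' i j h
    have hinv : (a⁻¹).val = (a.val)⁻¹ := by
      have h1 : a.val * (a⁻¹).val = 1 := by
        rw [← Units.val_mul, mul_inv_cancel, Units.val_one]
      exact (Matrix.inv_eq_right_inv h1).symm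
    have : Invertible a.val := a.isUnit.invertible
    have hbt' : BlockTriangular (a⁻¹).val id := by
      rw [hinv]
      exact blockTriangular_inv_of_blockTriangular hbt
    refine ⟨fun i => ?_, fun i j h => hbt' h⟩
    have h1 : (a.val * (a⁻¹).val) i i = 1 := by
      rw [← Units.val_mul, mul_inv_cancel, Units.val_one, Matrix.one_apply_eq]
    rw [Matrix.mul_apply, Finset.sum_eq_single i] at h1
    · rwa [ha, one_mul] at h1
    · intro j _ hj
      rcases lt_or_gt_of_ne hj with h | h
      · rw [ha' i j h, zero_mul]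
      · rw [hbt' h, mul_zero]
    · simp

/-- The entries of an element of `UT_n(ℤ)`. -/
def ent {n : ℕ} (g : UT n) : Matrix (Fin n) (Fin n) ℤ := g.1.val

section UTn

variable {n : ℕ}

theorem ent_mul (g h : UT n) : ent (g * h) = ent g * ent h := rfl

theorem ent_one : ent (1 : UT n) = 1 := rfl

theorem ent_pow (g : UT n) (k : ℕ) : ent (g ^ k) = ent g ^ k := by
  induction k with
  | zero => rw [pow_zero, pow_zero, ent_one]
  | succ k ih => rw [pow_succ, pow_succ, ent_mul, ih]

theorem ent_diag (g : UT n) (i : Fin n) : ent g i i = 1 := g.2.1 i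

theorem ent_lower (g : UT n) {i j : Fin n} (h : j < i) : ent g i j = 0 := g.2.2 i j h

theorem ent_injective : Function.Injective (ent : UT n → Matrix (Fin n) (Fin n) ℤ) := by
  intro g h e
  exact Subtype.ext (Units.ext e)

/-- The elementary matrix `1 + a e_{ij}` (`i < j`). -/
def E (i j : Fin n) (h : i < j) (a : ℤ) : UT n :=
  ⟨⟨transvection i j a, transvection i j (-a),
    by rw [transvection_mul_transvection_same i j h.ne]; simp,
    by rw [transvection_mul_transvection_same i j h.ne]; simp⟩, by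
    refine ⟨fun k => ?_, fun k l hkl => ?_⟩
    · have : ¬ (i = k ∧ j = k) := fun e => h.ne (e.1.trans e.2.symm)
      simp [transvection, Matrix.single, this]
    · have : ¬ (i = k ∧ j = l) := fun e => by
        rw [e.1, e.2] at h
        exact absurd h (not_lt.2 hkl.le)
      simp [transvection, Matrix.single, this, hkl.ne']⟩

theorem ent_E (i j : Fin n) (h : i < j) (a : ℤ) : ent (E i j h a) = transvection i j a := rfl

theorem E_add (i j : Fin n) (h : i < j) (a b : ℤ) : E i j h (a + b) = E i j h a * E i j h b := by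
  apply ent_injective
  rw [ent_mul, ent_E, ent_E, ent_E, transvection_mul_transvection_same i j h.ne]

theorem E_zero (i j : Fin n) (h : i < j) : E i j h 0 = 1 := by
  apply ent_injective
  rw [ent_E, transvection_zero, ent_one]

theorem E_neg (i j : Fin n) (h : i < j) (a : ℤ) : E i j h (-a) = (E i j h a)⁻¹ := by
  rw [eq_inv_iff_mul_eq_one, ← E_add, neg_add_cancel, E_zero]

theorem E_pow (i j : Fin n) (h : i < j) (k : ℕ) : E i j h k = (E i j h 1) ^ k := by
  induction k with
  | zero => rw [pow_zero, Nat.cast_zero, E_zero]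
  | succ k ih => rw [pow_succ, ← ih, Nat.cast_succ, E_add]

theorem E_comm (i k j : Fin n) (h1 : i < k) (h2 : k < j) (a b : ℤ) :
    E i k h1 a * E k j h2 b * (E i k h1 a)⁻¹ * (E k j h2 b)⁻¹ = E i j (h1.trans h2) (a * b) := by
  rw [mul_inv_eq_iff_eq_mul, mul_inv_eq_iff_eq_mul]
  apply ent_injective
  rw [ent_mul, ent_mul, ent_mul, ent_E, ent_E, ent_E]
  have hik : i ≠ k := h1.ne
  have hkj : k ≠ j := h2.ne
  have hij : i ≠ j := (h1.trans h2).ne
  simp only [transvection, mul_add, add_mul, one_mul, mul_one,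
    Matrix.single_mul_single_same, Matrix.single_mul_single_of_ne _ _ _ _ hij.symm,
    Matrix.single_mul_single_of_ne _ _ _ _ hkj.symm, add_zero]
  abel

/-- Multiplying by an elementary matrix on the left, when the row is trivial. -/
theorem ent_E_mul_apply (i j : Fin n) (h : i < j) (a : ℤ) (g : UT n)
    (hrow : ∀ l, j < l → ent g j l = 0) (k l : Fin n) :
    ent (E i j h a * g) k l = if k = i ∧ l = j then ent g i j + a else ent g k l := by
  rw [ent_mul, ent_E]
  by_cases hk : k = i
  · subst hk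
    rw [transvection_mul_apply_same]
    by_cases hl : l = j
    · subst hl
      rw [ent_diag]
      simp
    · have : ent g j l = 0 := by
        rcases lt_or_gt_of_ne hl with h' | h'
        · exact ent_lower g h'
        · exact hrow l h'
      simp [hl, this]
  · rw [transvection_mul_apply_of_ne _ _ _ _ hk]
    simp [hk]

/-! ### Word lengths of elementary matrices -/

section Bounds

variable {T : Set (UT n)} (hT : Subgroup.closure T = ⊤)

include hT

theorem mem_cl (g : UT n) : g ∈ Subgroup.closure T := by rw [hT]; trivial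

theorem wl_mul (g h : UT n) : wordLength T (g * h) ≤ wordLength T g + wordLength T h :=
  wordLength_mul_le (mem_cl hT g) (mem_cl hT h)

theorem wl_inv (g : UT n) : wordLength T g⁻¹ ≤ wordLength T g :=
  wordLength_inv_le (mem_cl hT g)

/-- The length of `1 + a e_{ij}` with `0 ≤ a ≤ m ^ e`, `e ≤ j - i`, is at most `c m`. -/
theorem wl_E_nat (e : ℕ) (he : 1 ≤ e) : ∃ c : ℕ, ∀ m : ℕ, 1 ≤ m → ∀ (i j : Fin n) (h : i < j),
    e ≤ j.val - i.val → ∀ a : ℕ, a ≤ m ^ e → wordLength T (E i j h a) ≤ c * m := by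
  classical
  -- the lengths of the generators
  obtain ⟨c0, hc0⟩ : ∃ c0 : ℕ, ∀ (i j : Fin n) (h : i < j), wordLength T (E i j h 1) ≤ c0 := by
    refine ⟨∑ p : {p : Fin n × Fin n // p.1 < p.2}, wordLength T (E p.1.1 p.1.2 p.2 1),
      fun i j h => ?_⟩
    exact Finset.single_le_sum (f := fun p : {p : Fin n × Fin n // p.1 < p.2} =>
      wordLength T (E p.1.1 p.1.2 p.2 1)) (fun _ _ => Nat.zero_le _)
      (Finset.mem_univ ⟨(i, j), h⟩)
  have hgen : ∀ (i j : Fin n) (h : i < j) (a : ℕ), wordLength T (E i j h a) ≤ a * c0 := by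
    intro i j h a
    rw [E_pow]
    exact (wordLength_pow_le (mem_cl hT _) a).trans (Nat.mul_le_mul_left _ (hc0 i j h))
  induction e, he using Nat.le_induction with
  | base =>
    refine ⟨c0, fun m _ i j h _ a ha => (hgen i j h a).trans ?_⟩
    rw [pow_one] at ha
    rw [mul_comm]
    exact Nat.mul_le_mul_left _ ha
  | succ e he ih =>
    obtain ⟨c, hc⟩ := ih
    refine ⟨2 * (c0 + c) + c, fun m hm i j h hij a ha => ?_⟩
    have hmpos : 0 < m ^ e := Nat.pow_pos hm
    set q := a / m ^ e with hq
    set r := a % m ^ e with hr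
    have haq : a = q * m ^ e + r := by
      rw [hq, hr, mul_comm]
      exact (Nat.div_add_mod a (m ^ e)).symm
    have hqm : q ≤ m := by
      rw [hq]
      apply Nat.div_le_of_le_mul
      rw [← pow_succ]
      exact ha
    have hrm : r ≤ m ^ e := (Nat.mod_lt _ hmpos).le
    -- the intermediate index
    have hjn := j.2
    have hlt : i.val < j.val := h
    let k : Fin n := ⟨i.val + 1, by omega⟩
    have h1 : i < k := by
      rw [Fin.lt_def]; show i.val < i.val + 1; omega
    have h2 : k < j := by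
      rw [Fin.lt_def]; show i.val + 1 < j.val; omega
    have hsplit : E i j h (a : ℕ) = (E i k h1 (q : ℕ) * E k j h2 ((m ^ e : ℕ) : ℤ) *
        (E i k h1 (q : ℕ))⁻¹ * (E k j h2 ((m ^ e : ℕ) : ℤ))⁻¹) * E i j h (r : ℕ) := by
      rw [E_comm, ← E_add]
      congr 1
      conv_lhs => rw [haq]
      push_cast
      ring
    rw [hsplit]
    have b1 : wordLength T (E i k h1 (q : ℕ)) ≤ c0 * m := by
      refine (hgen i k h1 q).trans ?_
      rw [mul_comm]
      exact Nat.mul_le_mul_left _ hqm
    have b2 : wordLength T (E k j h2 ((m ^ e : ℕ) : ℤ)) ≤ c * m := by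
      refine hc m hm k j h2 ?_ (m ^ e) le_rfl
      show e ≤ j.val - (i.val + 1)
      omega
    have b3 : wordLength T (E i j h (r : ℕ)) ≤ c * m :=
      hc m hm i j h (by omega) r hrm
    have b4 := wl_inv hT (E i k h1 (q : ℕ))
    have b5 := wl_inv hT (E k j h2 ((m ^ e : ℕ) : ℤ))
    have t1 := wl_mul hT (E i k h1 (q : ℕ) * E k j h2 ((m ^ e : ℕ) : ℤ) *
        (E i k h1 (q : ℕ))⁻¹ * (E k j h2 ((m ^ e : ℕ) : ℤ))⁻¹) (E i j h (r : ℕ))
    have t2 := wl_mul hT (E i k h1 (q : ℕ) * E k j h2 ((m ^ e : ℕ) : ℤ) *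
        (E i k h1 (q : ℕ))⁻¹) (E k j h2 ((m ^ e : ℕ) : ℤ))⁻¹
    have t3 := wl_mul hT (E i k h1 (q : ℕ) * E k j h2 ((m ^ e : ℕ) : ℤ))
        (E i k h1 (q : ℕ))⁻¹
    have t4 := wl_mul hT (E i k h1 (q : ℕ)) (E k j h2 ((m ^ e : ℕ) : ℤ))
    have expand : (2 * (c0 + c) + c) * m = 2 * (c0 * m) + 2 * (c * m) + c * m := by ring
    rw [expand]
    omega

/-- The length of `1 + a e_{ij}` with `|a| ≤ C m ^ (j - i)` is at most `c m`. -/
theorem wl_E (C : ℕ) : ∃ c : ℕ, ∀ m : ℕ, 1 ≤ m → ∀ (i j : Fin n) (h : i < j),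
    ∀ a : ℤ, |a| ≤ C * (m : ℤ) ^ (j.val - i.val) → wordLength T (E i j h a) ≤ c * m := by
  classical
  have hall : ∀ e : ℕ, ∃ c : ℕ, 1 ≤ e → ∀ m : ℕ, 1 ≤ m → ∀ (i j : Fin n) (h : i < j),
    e ≤ j.val - i.val → ∀ a : ℕ, a ≤ m ^ e → wordLength T (E i j h a) ≤ c * m := by
    intro e
    by_cases he : 1 ≤ e
    · obtain ⟨c, hc⟩ := wl_E_nat hT e he
      exact ⟨c, fun _ => hc⟩
    · exact ⟨0, fun h => absurd h he⟩
  choose c hc using hall
  let c' : ℕ := ∑ e ∈ Finset.range n, c e
  have hc' : ∀ m : ℕ, 1 ≤ m → ∀ (i j : Fin n) (h : i < j) (a : ℕ),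
      a ≤ m ^ (j.val - i.val) → wordLength T (E i j h a) ≤ c' * m := by
    intro m hm i j h a ha
    have hlt : i.val < j.val := h
    have hjn := j.2
    refine (hc (j.val - i.val) (by omega) m hm i j h le_rfl a ha).trans ?_
    apply Nat.mul_le_mul_right
    exact Finset.single_le_sum (f := c) (fun _ _ => Nat.zero_le _)
      (Finset.mem_range.2 (by omega))
  -- natural numbers at most `C m ^ (j - i)`
  have hnat : ∀ (C : ℕ) (m : ℕ), 1 ≤ m → ∀ (i j : Fin n) (h : i < j) (a : ℕ),
      a ≤ C * m ^ (j.val - i.val) → wordLength T (E i j h a) ≤ C * c' * m := by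
    intro C
    induction C with
    | zero =>
      intro m hm i j h a ha
      have : a = 0 := by omega
      subst this
      rw [Nat.cast_zero, E_zero, wordLength_one]
      exact Nat.zero_le _
    | succ C ih =>
      intro m hm i j h a ha
      rw [Nat.succ_mul] at ha
      set b := min a (m ^ (j.val - i.val)) with hb
      have hb1 : b ≤ m ^ (j.val - i.val) := min_le_right _ _
      have hb2 : a - b ≤ C * m ^ (j.val - i.val) := by omega
      have hb3 : a = (a - b) + b := by omega
      have e1 : E i j h (a : ℕ) = E i j h ((a - b : ℕ) : ℤ) * E i j h (b : ℕ) := by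
        rw [← E_add]
        congr 1
        exact_mod_cast hb3
      rw [e1]
      have t1 := wl_mul hT (E i j h ((a - b : ℕ) : ℤ)) (E i j h (b : ℕ))
      have t2 := ih m hm i j h (a - b) hb2
      have t3 := hc' m hm i j h b hb1
      have : (C + 1) * c' * m = C * c' * m + c' * m := by ring
      rw [this]
      omega
  refine ⟨C * c', fun m hm i j h a ha => ?_⟩
  rcases le_total 0 a with h0 | h0
  · obtain ⟨b, rfl⟩ := Int.eq_ofNat_of_zero_le h0
    rw [abs_of_nonneg h0] at ha
    exact hnat C m hm i j h b (by exact_mod_cast ha)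
  · obtain ⟨b, hb⟩ := Int.eq_ofNat_of_zero_le (neg_nonneg.2 h0)
    have ha' : a = -(b : ℤ) := by omega
    rw [abs_of_nonpos h0, hb] at ha
    rw [ha', E_neg]
    exact (wl_inv hT _).trans (hnat C m hm i j h b (by exact_mod_cast ha))

/-- An element of `UT_n(ℤ)` with entries of size at most `C m ^ (j - i)` has length at most
`c m`. -/
theorem wl_of_bound (C : ℕ) : ∃ c : ℕ, ∀ m : ℕ, 1 ≤ m → ∀ g : UT n,
    (∀ i j : Fin n, i < j → |ent g i j| ≤ C * (m : ℤ) ^ (j.val - i.val)) →
    wordLength T g ≤ c * m := by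
  classical
  obtain ⟨c, hc⟩ := wl_E hT C
  -- induction on the number of nonzero entries above the diagonal
  have key : ∀ (s : ℕ) (m : ℕ), 1 ≤ m → ∀ g : UT n,
      ((Finset.univ : Finset (Fin n × Fin n)).filter
        fun p => p.1 < p.2 ∧ ent g p.1 p.2 ≠ 0).card = s →
      (∀ i j : Fin n, i < j → |ent g i j| ≤ C * (m : ℤ) ^ (j.val - i.val)) →
      wordLength T g ≤ s * (c * m) := by
    intro s
    induction s with
    | zero =>
      intro m hm g hs hg
      have : g = 1 := by
        apply ent_injective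
        ext i j
        rw [ent_one]
        rcases lt_trichotomy i j with h | h | h
        · rw [Matrix.one_apply_ne h.ne]
          by_contra hne
          have : (i, j) ∈ ((Finset.univ : Finset (Fin n × Fin n)).filter
            fun p => p.1 < p.2 ∧ ent g p.1 p.2 ≠ 0) := by simp [h, hne]
          rw [Finset.card_eq_zero.1 hs] at this
          simp at this
        · subst h
          rw [ent_diag, Matrix.one_apply_eq]
        · rw [Matrix.one_apply_ne h.ne', ent_lower g h]
      rw [this, wordLength_one]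
      exact Nat.zero_le _
    | succ s ih =>
      intro m hm g hs hg
      set F := ((Finset.univ : Finset (Fin n × Fin n)).filter
        fun p => p.1 < p.2 ∧ ent g p.1 p.2 ≠ 0) with hF
      have hne : F.Nonempty := by
        rw [← Finset.card_pos, hs]; exact Nat.succ_pos _
      obtain ⟨⟨i, j⟩, hp, hmax⟩ := Finset.exists_max_image F (fun p => p.1) hne
      have hp' : i < j ∧ ent g i j ≠ 0 := by simpa [hF] using hp
      obtain ⟨hij, hgij⟩ := hp'
      have hrow : ∀ l, j < l → ent g j l = 0 := by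
        intro l hl
        by_contra hne'
        have h1 := hmax (j, l) (by simp [hF, hl, hne'])
        exact absurd (lt_of_lt_of_le hij h1) (lt_irrefl _)
      set g' := E i j hij (-(ent g i j)) * g with hg'
      have hent : ∀ k l, ent g' k l = if k = i ∧ l = j then 0 else ent g k l := by
        intro k l
        rw [hg', ent_E_mul_apply i j hij _ g hrow]
        simp
      have hgg' : g = E i j hij (ent g i j) * g' := by
        rw [hg', E_neg, mul_inv_cancel_left]
      have hcard : ((Finset.univ : Finset (Fin n × Fin n)).filter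
        fun p => p.1 < p.2 ∧ ent g' p.1 p.2 ≠ 0).card = s := by
        have : ((Finset.univ : Finset (Fin n × Fin n)).filter
            fun p => p.1 < p.2 ∧ ent g' p.1 p.2 ≠ 0) = F.erase (i, j) := by
          ext ⟨k, l⟩
          simp only [Finset.mem_filter, Finset.mem_univ, true_and, Finset.mem_erase, hF, hent,
            ne_eq, Prod.mk.injEq]
          by_cases h : k = i ∧ l = j
          · simp [h]
          · simp [h]
        rw [this, Finset.card_erase_of_mem hp, hs]
        rfl
      have hb : ∀ k l : Fin n, k < l → |ent g' k l| ≤ C * (m : ℤ) ^ (l.val - k.val) := by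
        intro k l hkl
        rw [hent]
        split_ifs
        · rw [abs_zero]; positivity
        · exact hg k l hkl
      have t1 := ih m hm g' hcard hb
      have t2 := hc m hm i j hij (ent g i j) (hg i j hij)
      have t3 := wl_mul hT (E i j hij (ent g i j)) g'
      rw [← hgg'] at t3
      rw [Nat.succ_mul]
      omega
  refine ⟨n * n * c, fun m hm g hg => (key _ m hm g rfl hg).trans ?_⟩
  have hle : ((Finset.univ : Finset (Fin n × Fin n)).filter
      fun p => p.1 < p.2 ∧ ent g p.1 p.2 ≠ 0).card ≤ n * n := by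
    refine (Finset.card_filter_le _ _).trans ?_
    simp
  calc _ ≤ (n * n) * (c * m) := Nat.mul_le_mul_right _ hle
    _ = n * n * c * m := by ring

end Bounds

/-- Powers of elements of the third term of the lower central series. -/
theorem pow_bound (g : UT n) (hg : ∀ i j : Fin n, i < j → j.val < i.val + 3 → ent g i j = 0) :
    ∃ C : ℕ, ∀ m : ℕ, 1 ≤ m → ∀ i j : Fin n, i < j →
      |ent (g ^ (m ^ 3)) i j| ≤ C * (m : ℤ) ^ (j.val - i.val) := by
  classical
  set M : Matrix (Fin n) (Fin n) ℤ := ent g - 1 with hM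
  have hM0 : ∀ i j : Fin n, j.val < i.val + 3 → M i j = 0 := by
    intro i j h
    rw [hM, Matrix.sub_apply]
    rcases lt_trichotomy i j with h' | h' | h'
    · rw [hg i j h' h, Matrix.one_apply_ne h'.ne, sub_zero]
    · subst h'
      rw [ent_diag, Matrix.one_apply_eq, sub_self]
    · rw [ent_lower g h', Matrix.one_apply_ne h'.ne', sub_zero]
  have hMk : ∀ (k : ℕ) (i j : Fin n), j.val < i.val + 3 * k → (M ^ k) i j = 0 := by
    intro k
    induction k with
    | zero =>
      intro i j h
      have : i ≠ j := fun e => by subst e; omega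
      rw [pow_zero, Matrix.one_apply_ne this]
    | succ k ih =>
      intro i j h
      rw [pow_succ, Matrix.mul_apply]
      refine Finset.sum_eq_zero fun l _ => ?_
      by_cases h1 : l.val < i.val + 3 * k
      · rw [ih i l h1, zero_mul]
      · rw [hM0 l j (by omega), mul_zero]
  have hg1 : ent g = M + 1 := by rw [hM, sub_add_cancel]
  have hB : ∃ C : ℕ, ∀ i j : Fin n, ∑ k ∈ Finset.range n, |(M ^ k) i j| ≤ (C : ℤ) := by
    refine ⟨(∑ i : Fin n, ∑ j : Fin n, ∑ k ∈ Finset.range n, |(M ^ k) i j|).toNat,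
      fun i j => ?_⟩
    have hnn : ∀ i j : Fin n, 0 ≤ ∑ k ∈ Finset.range n, |(M ^ k) i j| :=
      fun i j => Finset.sum_nonneg fun _ _ => abs_nonneg _
    refine le_trans ?_ (Int.self_le_toNat _)
    refine le_trans ?_ (Finset.single_le_sum (f := fun i : Fin n => ∑ j : Fin n,
      ∑ k ∈ Finset.range n, |(M ^ k) i j|)
      (fun i _ => Finset.sum_nonneg fun j _ => hnn i j) (Finset.mem_univ i))
    exact Finset.single_le_sum (f := fun j : Fin n => ∑ k ∈ Finset.range n, |(M ^ k) i j|)
      (fun j _ => hnn i j) (Finset.mem_univ j)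
  obtain ⟨C, hC⟩ := hB
  refine ⟨C, fun m hm i j hij => ?_⟩
  have hlt : i.val < j.val := hij
  have hjn := j.2
  have hm' : (1 : ℤ) ≤ (m : ℤ) := by exact_mod_cast hm
  rw [ent_pow, hg1, (Commute.one_right M).add_pow, Matrix.sum_apply]
  have hterm : ∀ k, (M ^ k * 1 ^ (m ^ 3 - k) * ((m ^ 3).choose k : Matrix (Fin n) (Fin n) ℤ)) i j
      = (M ^ k) i j * ((m ^ 3).choose k : ℤ) := by
    intro k
    rw [one_pow, mul_one, ← nsmul_eq_mul', Matrix.smul_apply, nsmul_eq_mul', mul_comm]
  simp only [hterm]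
  have hzero : ∀ k, n ≤ k → (M ^ k) i j = 0 := fun k hk => hMk k i j (by omega)
  -- each term
  have hbound : ∀ k, |(M ^ k) i j * ((m ^ 3).choose k : ℤ)| ≤
      |(M ^ k) i j| * (m : ℤ) ^ (j.val - i.val) := by
    intro k
    by_cases h : j.val < i.val + 3 * k
    · rw [hMk k i j h]; simp
    · rw [abs_mul]
      apply mul_le_mul_of_nonneg_left _ (abs_nonneg _)
      rw [abs_of_nonneg (by positivity)]
      calc (((m ^ 3).choose k : ℕ) : ℤ) ≤ (((m ^ 3) ^ k : ℕ) : ℤ) := by
            exact_mod_cast Nat.choose_le_pow _ _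
        _ = (m : ℤ) ^ (3 * k) := by push_cast; rw [← pow_mul]
        _ ≤ (m : ℤ) ^ (j.val - i.val) := pow_le_pow_right₀ hm' (by omega)
  calc |∑ k ∈ Finset.range (m ^ 3 + 1), (M ^ k) i j * ((m ^ 3).choose k : ℤ)|
      ≤ ∑ k ∈ Finset.range (m ^ 3 + 1), |(M ^ k) i j * ((m ^ 3).choose k : ℤ)| :=
        Finset.abs_sum_le_sum_abs _ _
    _ ≤ ∑ k ∈ Finset.range (m ^ 3 + 1), |(M ^ k) i j| * (m : ℤ) ^ (j.val - i.val) :=
        Finset.sum_le_sum fun k _ => hbound k
    _ = (∑ k ∈ Finset.range (m ^ 3 + 1), |(M ^ k) i j|) * (m : ℤ) ^ (j.val - i.val) := by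
        rw [Finset.sum_mul]
    _ ≤ (C : ℤ) * (m : ℤ) ^ (j.val - i.val) := by
        apply mul_le_mul_of_nonneg_right _ (by positivity)
        refine le_trans ?_ (hC i j)
        calc ∑ k ∈ Finset.range (m ^ 3 + 1), |(M ^ k) i j|
            ≤ ∑ k ∈ Finset.range (max (m ^ 3 + 1) n), |(M ^ k) i j| :=
              Finset.sum_le_sum_of_subset_of_nonneg
                (Finset.range_mono (le_max_left _ _)) fun _ _ _ => abs_nonneg _
          _ = ∑ k ∈ Finset.range n, |(M ^ k) i j| := by
              symm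
              apply Finset.sum_subset (Finset.range_mono (le_max_right _ _))
              intro k _ hk
              rw [hzero k (by simpa using hk), abs_zero]

/-- The first superdiagonal. -/
theorem ent_mul_one (g h : UT n) (i j : Fin n) (hij : j.val = i.val + 1) :
    ent (g * h) i j = ent g i j + ent h i j := by
  have hne : i ≠ j := fun e => by subst e; omega
  rw [ent_mul, Matrix.mul_apply, Fintype.sum_eq_add i j hne]
  · rw [ent_diag, ent_diag, one_mul, mul_one, add_comm]
  · rintro x ⟨h1, h2⟩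
    have h1' : x.val ≠ i.val := fun e => h1 (Fin.ext e)
    have h2' : x.val ≠ j.val := fun e => h2 (Fin.ext e)
    by_cases hx : x < i
    · rw [ent_lower g hx, zero_mul]
    · have : i.val ≤ x.val := not_lt.1 hx
      rw [ent_lower h (i := x) (j := j) (by rw [Fin.lt_def]; omega), mul_zero]

/-- The second superdiagonal. -/
theorem ent_mul_two (g h : UT n) (i k j : Fin n) (hk : k.val = i.val + 1)
    (hj : j.val = i.val + 2) :
    ent (g * h) i j = ent g i j + ent h i j + ent g i k * ent h k j := by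
  have hik : i ≠ k := fun e => by subst e; omega
  have hij : i ≠ j := fun e => by subst e; omega
  have hkj : k ≠ j := fun e => by subst e; omega
  have hsub : ({i, k, j} : Finset (Fin n)) ⊆ Finset.univ := Finset.subset_univ _
  rw [ent_mul, Matrix.mul_apply, ← Finset.sum_subset hsub]
  · rw [Finset.sum_insert (by simp [hik, hij]), Finset.sum_insert (by simp [hkj]),
      Finset.sum_singleton, ent_diag, ent_diag]
    ring
  · intro x _ hx
    simp only [Finset.mem_insert, Finset.mem_singleton, not_or] at hx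
    obtain ⟨h1, h2, h3⟩ := hx
    have h1' : x.val ≠ i.val := fun e => h1 (Fin.ext e)
    have h2' : x.val ≠ k.val := fun e => h2 (Fin.ext e)
    have h3' : x.val ≠ j.val := fun e => h3 (Fin.ext e)
    by_cases hx : x < i
    · rw [ent_lower g hx, zero_mul]
    · have : i.val ≤ x.val := not_lt.1 hx
      rw [ent_lower h (i := x) (j := j) (by rw [Fin.lt_def]; omega), mul_zero]

end UTn

/-! ### The Heisenberg group of dimension five -/

/-- The integral Heisenberg group of dimension five. -/
@[ext] structure H5 where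
  /-- first coordinate -/
  a1 : ℤ
  /-- second coordinate -/
  a2 : ℤ
  /-- third coordinate -/
  b1 : ℤ
  /-- fourth coordinate -/
  b2 : ℤ
  /-- central coordinate -/
  c : ℤ

namespace H5

instance : Mul H5 :=
  ⟨fun g h => ⟨g.a1 + h.a1, g.a2 + h.a2, g.b1 + h.b1, g.b2 + h.b2,
    g.c + h.c + g.a1 * h.b1 + g.a2 * h.b2⟩⟩

instance : One H5 := ⟨⟨0, 0, 0, 0, 0⟩⟩

instance : Inv H5 := ⟨fun g => ⟨-g.a1, -g.a2, -g.b1, -g.b2, -g.c + g.a1 * g.b1 + g.a2 * g.b2⟩⟩

@[simp] theorem mul_a1 (g h : H5) : (g * h).a1 = g.a1 + h.a1 := rfl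
@[simp] theorem mul_a2 (g h : H5) : (g * h).a2 = g.a2 + h.a2 := rfl
@[simp] theorem mul_b1 (g h : H5) : (g * h).b1 = g.b1 + h.b1 := rfl
@[simp] theorem mul_b2 (g h : H5) : (g * h).b2 = g.b2 + h.b2 := rfl
@[simp] theorem mul_c (g h : H5) :
    (g * h).c = g.c + h.c + g.a1 * h.b1 + g.a2 * h.b2 := rfl
@[simp] theorem one_a1 : (1 : H5).a1 = 0 := rfl
@[simp] theorem one_a2 : (1 : H5).a2 = 0 := rfl
@[simp] theorem one_b1 : (1 : H5).b1 = 0 := rfl
@[simp] theorem one_b2 : (1 : H5).b2 = 0 := rfl
@[simp] theorem one_c : (1 : H5).c = 0 := rfl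
@[simp] theorem inv_a1 (g : H5) : (g⁻¹).a1 = -g.a1 := rfl
@[simp] theorem inv_a2 (g : H5) : (g⁻¹).a2 = -g.a2 := rfl
@[simp] theorem inv_b1 (g : H5) : (g⁻¹).b1 = -g.b1 := rfl
@[simp] theorem inv_b2 (g : H5) : (g⁻¹).b2 = -g.b2 := rfl
@[simp] theorem inv_c (g : H5) : (g⁻¹).c = -g.c + g.a1 * g.b1 + g.a2 * g.b2 := rfl

instance : Group H5 :=
  Group.ofLeftAxioms
    (by intro g h k; ext <;> simp <;> ring)
    (by intro g; ext <;> simp)
    (by intro g; ext <;> simp <;> ring)

/-- the four generators and the central element -/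
def x1 : H5 := ⟨1, 0, 0, 0, 0⟩
/-- second generator -/
def x2 : H5 := ⟨0, 1, 0, 0, 0⟩
/-- third generator -/
def y1 : H5 := ⟨0, 0, 1, 0, 0⟩
/-- fourth generator -/
def y2 : H5 := ⟨0, 0, 0, 1, 0⟩
/-- the central element -/
def z : H5 := ⟨0, 0, 0, 0, 1⟩

/-- the hom `k ↦ x1 ^ k` -/
def homx1 : Multiplicative ℤ →* H5 where
  toFun k := ⟨k.toAdd, 0, 0, 0, 0⟩
  map_one' := by ext <;> simp
  map_mul' k l := by ext <;> simp
/-- the hom `k ↦ x2 ^ k` -/
def homx2 : Multiplicative ℤ →* H5 where
  toFun k := ⟨0, k.toAdd, 0, 0, 0⟩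
  map_one' := by ext <;> simp
  map_mul' k l := by ext <;> simp
/-- the hom `k ↦ y1 ^ k` -/
def homy1 : Multiplicative ℤ →* H5 where
  toFun k := ⟨0, 0, k.toAdd, 0, 0⟩
  map_one' := by ext <;> simp
  map_mul' k l := by ext <;> simp
/-- the hom `k ↦ y2 ^ k` -/
def homy2 : Multiplicative ℤ →* H5 where
  toFun k := ⟨0, 0, 0, k.toAdd, 0⟩
  map_one' := by ext <;> simp
  map_mul' k l := by ext <;> simp
/-- the hom `k ↦ z ^ k` -/
def homz : Multiplicative ℤ →* H5 where
  toFun k := ⟨0, 0, 0, 0, k.toAdd⟩
  map_one' := by ext <;> simp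
  map_mul' k l := by ext <;> simp

theorem hom_eq_zpow (f : Multiplicative ℤ →* H5) (k : ℤ) :
    f (Multiplicative.ofAdd k) = f (Multiplicative.ofAdd 1) ^ k := by
  rw [← map_zpow, ← ofAdd_zsmul]
  simp

theorem closure_gens : Subgroup.closure ({x1, x2, y1, y2, z} : Set H5) = ⊤ := by
  rw [eq_top_iff]
  rintro g -
  have hg : g = homx1 (Multiplicative.ofAdd g.a1) * homx2 (Multiplicative.ofAdd g.a2) *
      homy1 (Multiplicative.ofAdd g.b1) * homy2 (Multiplicative.ofAdd g.b2) *
      homz (Multiplicative.ofAdd (g.c - g.a1 * g.b1 - g.a2 * g.b2)) := by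
    ext <;> simp [homx1, homx2, homy1, homy2, homz] <;> ring
  rw [hg, hom_eq_zpow homx1, hom_eq_zpow homx2, hom_eq_zpow homy1, hom_eq_zpow homy2,
    hom_eq_zpow homz]
  refine Subgroup.mul_mem _ (Subgroup.mul_mem _ (Subgroup.mul_mem _ (Subgroup.mul_mem _
    (Subgroup.zpow_mem _ (Subgroup.subset_closure ?_) _)
    (Subgroup.zpow_mem _ (Subgroup.subset_closure ?_) _))
    (Subgroup.zpow_mem _ (Subgroup.subset_closure ?_) _))
    (Subgroup.zpow_mem _ (Subgroup.subset_closure ?_) _))
    (Subgroup.zpow_mem _ (Subgroup.subset_closure ?_) _) <;>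
  · simp [homx1, homx2, homy1, homy2, homz, x1, x2, y1, y2, z]

theorem fg : Group.FG H5 :=
  Group.fg_iff.2 ⟨_, closure_gens, Set.toFinite _⟩

/-- The abelianization. -/
def ab : H5 →* Multiplicative (ℤ × ℤ × ℤ × ℤ) where
  toFun g := Multiplicative.ofAdd (g.a1, g.a2, g.b1, g.b2)
  map_one' := rfl
  map_mul' _ _ := rfl

theorem isNilpotent : Group.IsNilpotent H5 := by
  refine Subgroup.isNilpotent_of_ker_le_center ab ?_
  intro g hg
  have h : (g.a1, g.a2, g.b1, g.b2) = ((0, 0, 0, 0) : ℤ × ℤ × ℤ × ℤ) := hg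
  simp only [Prod.mk.injEq] at h
  obtain ⟨h1, h2, h3, h4⟩ := h
  rw [Subgroup.mem_center_iff]
  intro k
  ext <;> simp [h1, h2, h3, h4, add_comm]

theorem pow_a1 (g : H5) (k : ℕ) : (g ^ k).a1 = k * g.a1 := by
  induction k with
  | zero => simp
  | succ k ih => rw [pow_succ, mul_a1, ih]; push_cast; ring

theorem pow_a2 (g : H5) (k : ℕ) : (g ^ k).a2 = k * g.a2 := by
  induction k with
  | zero => simp
  | succ k ih => rw [pow_succ, mul_a2, ih]; push_cast; ring

theorem pow_b1 (g : H5) (k : ℕ) : (g ^ k).b1 = k * g.b1 := by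
  induction k with
  | zero => simp
  | succ k ih => rw [pow_succ, mul_b1, ih]; push_cast; ring

theorem pow_b2 (g : H5) (k : ℕ) : (g ^ k).b2 = k * g.b2 := by
  induction k with
  | zero => simp
  | succ k ih => rw [pow_succ, mul_b2, ih]; push_cast; ring

theorem pow_c (g : H5) (h1 : g.a1 = 0) (h2 : g.a2 = 0) (k : ℕ) : (g ^ k).c = k * g.c := by
  induction k with
  | zero => simp
  | succ k ih => rw [pow_succ, mul_c, ih, pow_a1, pow_a2, h1, h2]; push_cast; ring

theorem torsionFree (g : H5) (k : ℕ) (hk : 0 < k) (h : g ^ k = 1) : g = 1 := by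
  have hk' : (k : ℤ) ≠ 0 := by exact_mod_cast hk.ne'
  have h1 : g.a1 = 0 := by
    have := pow_a1 g k
    rw [h, one_a1] at this
    exact (mul_eq_zero.1 this.symm).resolve_left hk'
  have h2 : g.a2 = 0 := by
    have := pow_a2 g k
    rw [h, one_a2] at this
    exact (mul_eq_zero.1 this.symm).resolve_left hk'
  have h3 : g.b1 = 0 := by
    have := pow_b1 g k
    rw [h, one_b1] at this
    exact (mul_eq_zero.1 this.symm).resolve_left hk'
  have h4 : g.b2 = 0 := by
    have := pow_b2 g k
    rw [h, one_b2] at this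
    exact (mul_eq_zero.1 this.symm).resolve_left hk'
  have h5 : g.c = 0 := by
    have := pow_c g h1 h2 k
    rw [h, one_c] at this
    exact (mul_eq_zero.1 this.symm).resolve_left hk'
  ext <;> simp [h1, h2, h3, h4, h5]

/-- The size of an element. -/
def size (g : H5) : ℕ :=
  g.a1.natAbs + g.a2.natAbs + g.b1.natAbs + g.b2.natAbs + g.c.natAbs

/-- The coordinates of a product of `l.length` elements of bounded size. -/
theorem list_bound (A : ℕ) (l : List H5) (hl : ∀ x ∈ l, size x ≤ A) :
    |l.prod.a1| ≤ A * l.length ∧ |l.prod.a2| ≤ A * l.length ∧ |l.prod.b1| ≤ A * l.length ∧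
    |l.prod.b2| ≤ A * l.length ∧ |l.prod.c| ≤ A * l.length + 2 * A ^ 2 * (l.length : ℤ) ^ 2 := by
  induction l with
  | nil => simp
  | cons x l ih =>
    obtain ⟨i1, i2, i3, i4, i5⟩ := ih fun y hy => hl y (List.mem_cons_of_mem _ hy)
    have hx := hl x List.mem_cons_self
    unfold size at hx
    have e1 : |x.a1| ≤ A := by rw [Int.abs_eq_natAbs]; omega
    have e2 : |x.a2| ≤ A := by rw [Int.abs_eq_natAbs]; omega
    have e3 : |x.b1| ≤ A := by rw [Int.abs_eq_natAbs]; omega
    have e4 : |x.b2| ≤ A := by rw [Int.abs_eq_natAbs]; omega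
    have e5 : |x.c| ≤ A := by rw [Int.abs_eq_natAbs]; omega
    rw [List.prod_cons, List.length_cons]
    simp only [mul_a1, mul_a2, mul_b1, mul_b2, mul_c]
    have hA : (0 : ℤ) ≤ A := Int.natCast_nonneg _
    have hL : (0 : ℤ) ≤ l.length := Int.natCast_nonneg _
    push_cast
    refine ⟨?_, ?_, ?_, ?_, ?_⟩
    · exact (abs_add_le _ _).trans (by linarith)
    · exact (abs_add_le _ _).trans (by linarith)
    · exact (abs_add_le _ _).trans (by linarith)
    · exact (abs_add_le _ _).trans (by linarith)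
    · have m1 : |x.a1 * l.prod.b1| ≤ A * (A * l.length) := by
        rw [abs_mul]; exact mul_le_mul e1 i3 (abs_nonneg _) hA
      have m2 : |x.a2 * l.prod.b2| ≤ A * (A * l.length) := by
        rw [abs_mul]; exact mul_le_mul e2 i4 (abs_nonneg _) hA
      have t1 := abs_add_le (x.c + l.prod.c + x.a1 * l.prod.b1) (x.a2 * l.prod.b2)
      have t2 := abs_add_le (x.c + l.prod.c) (x.a1 * l.prod.b1)
      have t3 := abs_add_le x.c l.prod.c
      have h6 : (0 : ℤ) ≤ (A : ℤ) ^ 2 * l.length := by positivity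
      have h7 : (0 : ℤ) ≤ (A : ℤ) ^ 2 := by positivity
      nlinarith

/-- The second superdiagonal of the image of the central element vanishes. -/
theorem second_superdiagonal {n : ℕ} (φ : H5 →* UT n) (i j : Fin n) (hij : i < j)
    (hj : j.val < i.val + 3) : ent (φ z) i j = 0 := by
  have r1 : φ (x1 * y1) = φ (y1 * x1 * z) := congrArg φ (by ext <;> simp [x1, y1, z])
  have r2 : φ (x2 * y2) = φ (y2 * x2 * z) := congrArg φ (by ext <;> simp [x2, y2, z])
  have r3 : φ (x1 * x2) = φ (x2 * x1) := congrArg φ (by ext <;> simp [x1, x2])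
  have r4 : φ (x1 * y2) = φ (y2 * x1) := congrArg φ (by ext <;> simp [x1, y2])
  have r5 : φ (y1 * x2) = φ (x2 * y1) := congrArg φ (by ext <;> simp [y1, x2])
  have r6 : φ (y1 * y2) = φ (y2 * y1) := congrArg φ (by ext <;> simp [y1, y2])
  simp only [map_mul] at r1 r2 r3 r4 r5 r6
  have hlt : i.val < j.val := hij
  -- the first superdiagonal
  have first : ∀ i j : Fin n, j.val = i.val + 1 → ent (φ z) i j = 0 := by
    intro i j h
    have := congrArg (fun g : UT n => ent g i j) r1
    simp only [ent_mul_one _ _ i j h] at this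
    linarith
  rcases (show j.val = i.val + 1 ∨ j.val = i.val + 2 by omega) with h | h
  · exact first i j h
  · have hjn := j.2
    obtain ⟨k, hk⟩ : ∃ k : Fin n, k.val = i.val + 1 := ⟨⟨i.val + 1, by omega⟩, rfl⟩
    have hkj : j.val = k.val + 1 := by omega
    have f1 := first i k hk
    have f2 := first k j hkj
    have s : ∀ {g g' : UT n}, g = g' → ent g i j = ent g' i j := fun e => by rw [e]
    have s1 := s r1
    have s2 := s r2
    have s3 := s r3
    have s4 := s r4
    have s5 := s r5
    have s6 := s r6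
    simp only [ent_mul_two _ _ i k j hk h, ent_mul_one _ _ i k hk, f2] at s1 s2 s3 s4 s5 s6
    set p := ent (φ x1) i k
    set p' := ent (φ x1) k j
    set q := ent (φ y1) i k
    set q' := ent (φ y1) k j
    set u := ent (φ x2) i k
    set u' := ent (φ x2) k j
    set v := ent (φ y2) i k
    set v' := ent (φ y2) k j
    set c := ent (φ z) i j
    have e1 : p * q' - q * p' = c := by linarith
    have e2 : u * v' - v * u' = c := by linarith
    have e3 : p * u' - u * p' = 0 := by linarith
    have e4 : p * v' - v * p' = 0 := by linarith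
    have e5 : q * u' - u * q' = 0 := by linarith
    have e6 : q * v' - v * q' = 0 := by linarith
    have : c * c = 0 := by
      calc c * c = (p * q' - q * p') * (u * v' - v * u') := by rw [e1, e2]
        _ = (p * u' - u * p') * (q * v' - v * q') - (p * v' - v * p') * (q * u' - u * q') := by
          ring
        _ = 0 := by rw [e3, e4]; ring
    exact mul_self_eq_zero.1 this

end H5

open H5 in
/-- **Main theorem.** The integral Heisenberg group of dimension five is finitely generated,
nilpotent and torsion-free, and the image of each of its embeddings into a group `UT_n(ℤ)` is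
distorted. -/
theorem main (n : ℕ) (φ : H5 →* UT n) (hφ : Function.Injective φ) : ¬ Undistorted φ.range := by
  classical
  rintro ⟨S, T, hS, hT, C, hC⟩
  -- the length in the big group
  obtain ⟨C1, hC1⟩ := pow_bound (φ z) (fun i j hij hj => second_superdiagonal φ i j hij hj)
  obtain ⟨c, hc⟩ := wl_of_bound hT C1
  have upper : ∀ m : ℕ, 1 ≤ m → wordLength (T : Set (UT n)) (φ z ^ (m ^ 3)) ≤ c * m :=
    fun m hm => hc m hm _ (hC1 m hm)
  -- the length in the subgroup
  let S' : Set H5 := {y | φ y ∈ (S : Set (UT n)) ∨ (φ y)⁻¹ ∈ (S : Set (UT n))}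
  have hfin : S'.Finite := by
    have h1 : S' = φ ⁻¹' ((S : Set (UT n)) ∪ (S : Set (UT n))⁻¹) := by
      ext y; simp [S']
    rw [h1]
    exact (S.finite_toSet.union S.finite_toSet.inv).preimage hφ.injOn
  obtain ⟨A, hA⟩ : ∃ A : ℕ, ∀ y ∈ S', size y ≤ A := by
    obtain ⟨A, hA⟩ := (hfin.image size).bddAbove
    exact ⟨A, fun y hy => hA (Set.mem_image_of_mem _ hy)⟩
  have lower : ∀ m : ℕ, ((m : ℤ) ^ 3) ≤
      A * (wordLength (S : Set (UT n)) (φ z ^ (m ^ 3)) : ℤ) +
      2 * A ^ 2 * (wordLength (S : Set (UT n)) (φ z ^ (m ^ 3)) : ℤ) ^ 2 := by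
    intro m
    have hmem : φ z ^ (m ^ 3) ∈ Subgroup.closure (S : Set (UT n)) := by
      rw [hS]; exact Subgroup.pow_mem _ (MonoidHom.mem_range.2 ⟨z, rfl⟩) _
    obtain ⟨l, hl1, hl2, hl3⟩ := exists_list hmem
    -- pull the list back
    have hpull : ∀ l : List (UT n), (∀ x ∈ l, x ∈ (S : Set (UT n)) ∨ x⁻¹ ∈ (S : Set (UT n))) →
        ∃ l' : List H5, l'.map φ = l ∧ ∀ y ∈ l', y ∈ S' := by
      intro l
      induction l with
      | nil => intro _; exact ⟨[], rfl, by simp⟩
      | cons x l ih =>
        intro h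
        obtain ⟨l', h1, h2⟩ := ih fun y hy => h y (List.mem_cons_of_mem _ hy)
        have hx := h x List.mem_cons_self
        have hxr : x ∈ φ.range := by
          rcases hx with hx | hx
          · rw [← hS]; exact Subgroup.subset_closure hx
          · rw [← hS, ← Subgroup.inv_mem_iff]; exact Subgroup.subset_closure hx
        obtain ⟨y, rfl⟩ := hxr
        refine ⟨y :: l', by rw [List.map_cons, h1], ?_⟩
        intro w hw
        rcases List.mem_cons.1 hw with rfl | hw
        · exact hx
        · exact h2 w hw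
    obtain ⟨l', hl4, hl5⟩ := hpull l hl2
    have hprod : l'.prod = z ^ (m ^ 3) := by
      apply hφ
      rw [map_list_prod, hl4, hl3, map_pow]
    have hb := (list_bound A l' fun y hy => hA y (hl5 y hy)).2.2.2.2
    have hlen : l'.length = wordLength (S : Set (UT n)) (φ z ^ (m ^ 3)) := by
      rw [← hl1, ← hl4, List.length_map]
    rw [hprod, pow_c z rfl rfl, hlen] at hb
    have hz : z.c = 1 := rfl
    rw [hz, mul_one, abs_of_nonneg (by positivity)] at hb
    push_cast at hb
    exact hb
  -- comparison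
  set D : ℕ := C * c + C with hD
  have hcomp : ∀ m : ℕ, 1 ≤ m → wordLength (S : Set (UT n)) (φ z ^ (m ^ 3)) ≤ D * m := by
    intro m hm
    have h1 := hC (φ z ^ (m ^ 3)) (Subgroup.pow_mem _ (MonoidHom.mem_range.2 ⟨z, rfl⟩) _)
    have h2 := upper m hm
    calc _ ≤ C * (c * m) + C := h1.trans (by gcongr)
      _ ≤ C * (c * m) + C * m := by gcongr; exact Nat.le_mul_of_pos_right _ hm
      _ = D * m := by rw [hD]; ring
  set m : ℕ := A * D + 2 * A ^ 2 * D ^ 2 + 1 with hm
  have hm1 : 1 ≤ m := by omega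
  have h1 := lower m
  have h2 : (wordLength (S : Set (UT n)) (φ z ^ (m ^ 3)) : ℤ) ≤ D * m := by
    exact_mod_cast hcomp m hm1
  have h3 : ((m : ℤ)) ^ 3 ≤ A * (D * m) + 2 * A ^ 2 * (D * m) ^ 2 := by
    refine h1.trans ?_
    gcongr
  have hmz : (1 : ℤ) ≤ m := by exact_mod_cast hm1
  have h4 : (A : ℤ) * (D * m) ≤ A * D * m ^ 2 := by
    have : (0 : ℤ) ≤ A * D * m := by positivity
    nlinarith
  have h5 : ((m : ℤ)) ^ 3 ≤ (A * D + 2 * A ^ 2 * D ^ 2) * m ^ 2 := by
    calc ((m : ℤ)) ^ 3 ≤ A * (D * m) + 2 * A ^ 2 * (D * m) ^ 2 := h3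
      _ ≤ A * D * m ^ 2 + 2 * A ^ 2 * (D * m) ^ 2 := by linarith
      _ = _ := by ring
  have h6 : (m : ℤ) = A * D + 2 * A ^ 2 * D ^ 2 + 1 := by rw [hm]; push_cast; ring
  have h7 : (0 : ℤ) < (m : ℤ) ^ 2 := by positivity
  have h8 : (m : ℤ) * (m : ℤ) ^ 2 ≤ ((m : ℤ) - 1) * m ^ 2 := by
    calc (m : ℤ) * (m : ℤ) ^ 2 = (m : ℤ) ^ 3 := by ring
      _ ≤ _ := h5
      _ = ((m : ℤ) - 1) * m ^ 2 := by rw [h6]; ring
  nlinarith

/-- There is a finitely generated torsion-free nilpotent group `G` such that, for every `n`, the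
image of every injective homomorphism from `G` to `UT_n(ℤ)` is a distorted subgroup. -/
theorem result : ∃ (G : Type) (_ : Group G), Group.FG G ∧ Group.IsNilpotent G ∧
    (∀ (g : G) (k : ℕ), 0 < k → g ^ k = 1 → g = 1) ∧
    ∀ (n : ℕ) (φ : G →* UT n), Function.Injective φ → ¬ Undistorted φ.range :=
  ⟨H5, inferInstance, H5.fg, H5.isNilpotent, H5.torsionFree, main⟩

end Pool.Agent.Results.MP_34ced1_al.HeisenbergFive
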